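import Pool.Agent.Y485.UGS.Stm

/-!
# Project UGS: unipotent actions of a group generated by a subgroup and one more element
-/

set_option autoImplicit false

namespace Pool.Agent.Y177.UGS

open Pool.Agent.Y485.UGS

variable {G A : Type} [Group G] [AddCommGroup A] (φ : G →* AddMonoid.End A)

/-- products of `r` elements `φ h - 1` vanish -/
def U (P : Subgroup G) (r : ℕ) : Prop :=
  ∀ l : List G, (∀ h ∈ l, h ∈ P) → l.length = r → (l.map (fun h => φ h - 1)).prod = 0

/-- the lower central series of the action -/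
def F (P : Subgroup G) : ℕ → AddSubgroup A
  | 0 => ⊤
  | i + 1 => AddSubgroup.closure {x | ∃ h ∈ P, ∃ w ∈ F P i, x = φ h w - w}

theorem mem_F {P : Subgroup G} {i : ℕ} {h : G} (hh : h ∈ P) {w : A} (hw : w ∈ F φ P i) :
    φ h w - w ∈ F φ P (i + 1) :=
  AddSubgroup.subset_closure ⟨h, hh, w, hw, rfl⟩

theorem F_succ_le (P : Subgroup G) (i : ℕ) : F φ P (i + 1) ≤ F φ P i := by
  induction i with
  | zero => exact le_top
  | succ i ih =>
    refine (AddSubgroup.closure_le _).2 ?_
    rintro _ ⟨h, hh, w, hw, rfl⟩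
    exact mem_F φ hh (ih hw)

theorem F_stable {P : Subgroup G} {g : G} (hg : ∀ h ∈ P, g * h * g⁻¹ ∈ P) (i : ℕ) :
    ∀ w ∈ F φ P i, φ g w ∈ F φ P i := by
  induction i with
  | zero => intro w _; exact AddSubgroup.mem_top _
  | succ i ih =>
    intro w hw
    induction hw using AddSubgroup.closure_induction with
    | mem x hx =>
      obtain ⟨h, hh, w, hw, rfl⟩ := hx
      have h1 := mem_F φ (hg h hh) (ih w hw)
      have h2 : φ (g * h * g⁻¹) (φ g w) = φ g (φ h w) := by
        have h3 : φ (g * h * g⁻¹) * φ g = φ g * φ h := by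
          rw [← map_mul, ← map_mul, inv_mul_cancel_right]
        exact DFunLike.congr_fun h3 w
      rw [h2] at h1
      rw [map_sub]
      exact h1
    | zero => rw [map_zero]; exact zero_mem _
    | add x y _ _ hx hy => rw [map_add]; exact add_mem hx hy
    | neg x _ hx => rw [map_neg]; exact neg_mem hx

theorem F_le (P : Subgroup G) (i : ℕ) : F φ P i ≤ AddSubgroup.closure
    {x | ∃ l : List G, (∀ h ∈ l, h ∈ P) ∧ l.length = i ∧
      ∃ a : A, x = (l.map (fun h => φ h - 1)).prod a} := by
  induction i with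
  | zero =>
    intro a _
    exact AddSubgroup.subset_closure ⟨[], by simp, rfl, a, rfl⟩
  | succ i ih =>
    refine (AddSubgroup.closure_le _).2 ?_
    rintro _ ⟨h, hh, w, hw, rfl⟩
    have hw' := ih hw
    clear hw
    induction hw' using AddSubgroup.closure_induction with
    | mem x hx =>
      obtain ⟨l, hl, hi, a, rfl⟩ := hx
      refine AddSubgroup.subset_closure ⟨h :: l, ?_, ?_, a, ?_⟩
      · intro h' hh'
        rcases List.mem_cons.1 hh' with rfl | h2
        · exact hh
        · exact hl _ h2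
      · rw [List.length_cons, hi]
      · rw [List.map_cons, List.prod_cons]; rfl
    | zero => simp only [map_zero, sub_zero]; exact zero_mem _
    | add x y _ _ hx hy =>
      rw [map_add, add_sub_add_comm]; exact add_mem hx hy
    | neg x _ hx =>
      have h3 : φ h (-x) - -x = -(φ h x - x) := by rw [map_neg]; abel
      rw [h3]; exact neg_mem hx

theorem F_eq_bot {P : Subgroup G} {r : ℕ} (hU : U φ P r) : F φ P r = ⊥ := by
  rw [eq_bot_iff]
  refine (F_le φ P r).trans ((AddSubgroup.closure_le _).2 ?_)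
  rintro _ ⟨l, hl, hr, a, rfl⟩
  rw [hU l hl hr]
  exact AddSubgroup.mem_bot.2 rfl

theorem list_mem {Q : Subgroup G} (V : ℕ → AddSubgroup A)
    (hV : ∀ j, ∀ h ∈ Q, ∀ w ∈ V j, φ h w - w ∈ V (j + 1)) (l : List G) (hl : ∀ h ∈ l, h ∈ Q) :
    ∀ (j : ℕ), ∀ w ∈ V j, (l.map (fun h => φ h - 1)).prod w ∈ V (j + l.length) := by
  induction l with
  | nil => intro j w hw; exact hw
  | cons h l ih =>
    intro j w hw
    rw [List.map_cons, List.prod_cons, List.length_cons, ← add_assoc]
    exact hV _ h (hl h (List.mem_cons_self ..)) _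
      (ih (fun h' hh' => hl h' (List.mem_cons_of_mem _ hh')) j w hw)

/-- unipotent actions of a group generated by a subgroup and one more element -/
theorem U_insert {P : Subgroup G} {r s : ℕ} {t : G} (hU : U φ P r)
    (ht : ∀ h ∈ P, t * h * t⁻¹ ∈ P) (ht' : ∀ h ∈ P, t⁻¹ * h * t ∈ P)
    (hs : (φ t - 1) ^ s = 0) : U φ (Subgroup.closure ((P : Set G) ∪ {t})) (r * s) := by
  set N : AddMonoid.End A := φ t - 1 with hN
  have hNw : ∀ w : A, N w = φ t w - w := fun w => rfl
  have htt : ∀ w : A, φ t⁻¹ (φ t w) = w := by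
    intro w
    have h1 : φ t⁻¹ * φ t = 1 := by rw [← map_mul, inv_mul_cancel, map_one]
    exact DFunLike.congr_fun h1 w
  have htt' : ∀ w : A, φ t (φ t⁻¹ w) = w := by
    intro w
    have h1 : φ t * φ t⁻¹ = 1 := by rw [← map_mul, mul_inv_cancel, map_one]
    exact DFunLike.congr_fun h1 w
  have hcN : Commute (φ t⁻¹) N := by
    rw [hN]
    refine Commute.sub_right ?_ (Commute.one_right _)
    rw [Commute, SemiconjBy, ← map_mul, ← map_mul, inv_mul_cancel, mul_inv_cancel]
  have hst : ∀ i, ∀ w ∈ F φ P i, φ t w ∈ F φ P i := F_stable φ ht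
  have hst' : ∀ i, ∀ w ∈ F φ P i, φ t⁻¹ w ∈ F φ P i :=
    F_stable φ (fun h hh => by rw [inv_inv]; exact ht' h hh)
  have hNst : ∀ i, ∀ w ∈ F φ P i, N w ∈ F φ P i := fun i w hw =>
    sub_mem (hst i w hw) hw
  -- the refined chain
  let W : ℕ → ℕ → AddSubgroup A := fun i j => (F φ P i).map (N ^ j) ⊔ F φ P (i + 1)
  have hWle : ∀ i j, W i j ≤ F φ P i := by
    intro i j
    refine sup_le ?_ (F_succ_le φ P i)
    rintro _ ⟨b, hb, rfl⟩
    induction j with
    | zero => exact hb
    | succ j ih => rw [pow_succ']; exact hNst i _ ih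
  have hWanti : ∀ i j, W i (j + 1) ≤ W i j := by
    intro i j
    refine sup_le_sup_right ?_ _
    rintro _ ⟨b, hb, rfl⟩
    exact ⟨N b, hNst i b hb, by rw [pow_succ]; rfl⟩
  have hgen : ∀ i j, ∀ h ∈ Subgroup.closure ((P : Set G) ∪ {t}), ∀ w ∈ W i j,
      φ h w - w ∈ W i (j + 1) := by
    intro i j h hh
    induction hh using Subgroup.closure_induction'' generalizing j with
    | mem x hx =>
      intro w hw
      rcases hx with hx | hx
      · exact AddSubgroup.mem_sup_right (mem_F φ hx (hWle i j hw))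
      · rw [Set.mem_singleton_iff] at hx
        subst hx
        obtain ⟨_, ⟨b, hb, rfl⟩, c, hc, rfl⟩ := AddSubgroup.mem_sup.1 hw
        rw [← hNw, map_add]
        refine AddSubgroup.mem_sup.2 ⟨_, ⟨b, hb, rfl⟩, N c, hNst _ _ hc, ?_⟩
        rw [pow_succ']; rfl
    | inv_mem x hx =>
      intro w hw
      rcases hx with hx | hx
      · exact AddSubgroup.mem_sup_right (mem_F φ (P.inv_mem hx) (hWle i j hw))
      · rw [Set.mem_singleton_iff] at hx
        subst hx
        obtain ⟨_, ⟨b, hb, rfl⟩, c, hc, rfl⟩ := AddSubgroup.mem_sup.1 hw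
        have h1 : φ x⁻¹ ((N ^ j) b + c) - ((N ^ j) b + c) =
            (N ^ (j + 1)) (-(φ x⁻¹ b)) + -(φ x⁻¹ (N c)) := by
          have h2 : φ x⁻¹ ((N ^ j) b + c) - ((N ^ j) b + c) =
              - (φ x⁻¹ (N ((N ^ j) b + c))) := by
            rw [hNw, map_sub, htt]; abel
          rw [h2, map_add, map_add, neg_add, map_neg]
          congr 2
          have h3 : φ x⁻¹ * N ^ (j + 1) = N ^ (j + 1) * φ x⁻¹ := (hcN.pow_right (j + 1)).eq
          have h4 := DFunLike.congr_fun h3 b
          rw [pow_succ'] at h4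
          rw [pow_succ']
          exact h4
        have h5 : (N ^ (j + 1)) (-(φ x⁻¹ b)) + -(φ x⁻¹ (N c)) ∈ W i (j + 1) :=
          AddSubgroup.mem_sup.2 ⟨_, ⟨-(φ x⁻¹ b), neg_mem (hst' i b hb), rfl⟩, _,
            neg_mem (hst' _ _ (hNst _ _ hc)), rfl⟩
        rw [← h1] at h5
        exact h5
    | one => intro w hw; rw [map_one]; simp only [AddMonoid.End.one_apply, sub_self]; exact zero_mem _
    | mul x y _ _ hx hy =>
      intro w hw
      have h0 : φ (x * y) w = φ x (φ y w) := DFunLike.congr_fun (map_mul φ x y) w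
      have h1 : φ (x * y) w - w = (φ x (φ y w - w) - (φ y w - w)) + (φ y w - w) +
          (φ x w - w) := by
        rw [h0, map_sub]; abel
      rw [h1]
      exact add_mem (add_mem (hWanti i _ (hx _ _ (hy j w hw))) (hy j w hw)) (hx j w hw)
  -- products of `s` elements
  have hstep : ∀ i, ∀ l : List G, (∀ h ∈ l, h ∈ Subgroup.closure ((P : Set G) ∪ {t})) →
      l.length = s → ∀ w ∈ F φ P i, (l.map (fun h => φ h - 1)).prod w ∈ F φ P (i + 1) := by
    intro i l hl hls w hw
    have h1 : w ∈ W i 0 := by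
      refine AddSubgroup.mem_sup_left ⟨w, hw, ?_⟩
      rw [pow_zero]; rfl
    have h2 := list_mem φ (W i) (hgen i) l hl 0 w h1
    rw [hls, zero_add] at h2
    have h3 : W i s ≤ F φ P (i + 1) := by
      refine sup_le ?_ le_rfl
      rintro _ ⟨b, _, rfl⟩
      rw [hs]
      exact zero_mem _
    exact h3 h2
  have hall : ∀ i, ∀ l : List G, (∀ h ∈ l, h ∈ Subgroup.closure ((P : Set G) ∪ {t})) →
      l.length = i * s → ∀ w, (l.map (fun h => φ h - 1)).prod w ∈ F φ P i := by
    intro i
    induction i with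
    | zero => intro l _ _ w; exact AddSubgroup.mem_top _
    | succ i ih =>
      intro l hl hlen w
      rw [← List.take_append_drop s l, List.map_append, List.prod_append]
      refine hstep i (l.take s) (fun h hh => hl h (List.mem_of_mem_take hh)) ?_ _
        (ih (l.drop s) (fun h hh => hl h (List.mem_of_mem_drop hh)) ?_ w)
      · rw [List.length_take, hlen]; apply min_eq_left; nlinarith
      · rw [List.length_drop, hlen]; rw [Nat.succ_mul]; omega
  intro l hl hlen
  ext w
  have h1 := hall r l hl hlen w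
  rw [F_eq_bot φ hU, AddSubgroup.mem_bot] at h1
  exact h1

end Pool.Agent.Y177.UGS
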