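import Pool.Agent.Y485.UGS.Stm

/-!
# Project UGS: groups which are finite by abelian modulo a small subgroup
-/

set_option autoImplicit false

open scoped Classical commutatorElement

namespace Pool.Agent.Y177.UGS

/-- a subgroup of finite index of a finitely generated group contains a characteristic subgroup of
finite index -/
theorem exists_char {K : Type} [Group K] [Group.FG K] (K0 : Subgroup K) (h0 : K0.index ≠ 0) :
    ∃ K1 : Subgroup K, K1.Characteristic ∧ K1 ≤ K0 ∧ K1.index ≠ 0 := by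
  obtain ⟨T, hT⟩ := Group.FG.out (G := K)
  have hfin : Finite (K →* Equiv.Perm (Fin K0.index)) := by
    refine Finite.of_injective
      (fun f : K →* Equiv.Perm (Fin K0.index) => fun t : T => f t) ?_
    intro f g hfg
    refine MonoidHom.eq_of_eqOn_dense hT ?_
    intro t ht
    exact congrFun hfg ⟨t, ht⟩
  let K1 : Subgroup K := ⨅ f : K →* Equiv.Perm (Fin K0.index), f.ker
  have hmem : ∀ x : K, x ∈ K1 ↔ ∀ f : K →* Equiv.Perm (Fin K0.index), f x = 1 := by
    intro x
    simp only [K1, Subgroup.mem_iInf, MonoidHom.mem_ker]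
  refine ⟨K1, ?_, ?_, ?_⟩
  · rw [Subgroup.characteristic_iff_le_comap]
    intro α x hx
    rw [Subgroup.mem_comap, hmem]
    intro f
    exact (hmem x).1 hx (f.comp α.toMonoidHom)
  · intro x hx
    have : Finite (K ⧸ K0) := Nat.finite_of_card_ne_zero h0
    have he : Nat.card (K ⧸ K0) = K0.index := rfl
    let eq : (K ⧸ K0) ≃ Fin K0.index := Finite.equivFinOfCardEq he
    let f : K →* Equiv.Perm (Fin K0.index) :=
      (eq.permCongrHom).toMonoidHom.comp (MulAction.toPermHom K (K ⧸ K0))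
    have h1 : f x = 1 := (hmem x).1 hx f
    have h2 : MulAction.toPermHom K (K ⧸ K0) x = 1 := by
      apply eq.permCongrHom.injective
      rw [map_one]
      exact h1
    have h3 := DFunLike.congr_fun h2 ((1 : K) : K ⧸ K0)
    have h4 : ((x * 1 : K) : K ⧸ K0) = ((1 : K) : K ⧸ K0) := h3
    rw [mul_one] at h4
    have h5 := QuotientGroup.eq.1 h4
    rw [mul_one] at h5
    exact (K0.inv_mem_iff).1 h5
  · have h6 : K1.FiniteIndex := by
      refine Subgroup.finiteIndex_iInf (fun f => ?_)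
      infer_instance
    exact h6.index_ne_zero

/-- in a group which is finite by abelian some power of every element is central -/
theorem central_pow {G : Type} [Group G] (K : Subgroup G) [K.Normal] [Finite K]
    (hK : ⁅(⊤ : Subgroup G), ⊤⁆ ≤ K) :
    ∃ m, 0 < m ∧ ∀ x y : G, x ^ m * y = y * x ^ m := by
  have hfin : Finite (MulAut K) := by
    refine Finite.of_injective (fun f : MulAut K => (f : K → K)) ?_
    intro f g hfg
    exact DFunLike.coe_injective hfg
  refine ⟨Nat.card (MulAut K) * Nat.card K, Nat.mul_pos Nat.card_pos Nat.card_pos, fun x y => ?_⟩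
  have h1 : ∀ κ ∈ K, Commute (x ^ Nat.card (MulAut K)) κ := by
    intro κ hκ
    have h2 : (MulAut.conjNormal (x ^ Nat.card (MulAut K)) : MulAut K) = 1 := by
      rw [map_pow, pow_card_eq_one']
    have h3 := congrArg Subtype.val (DFunLike.congr_fun h2 ⟨κ, hκ⟩)
    rw [MulAut.conjNormal_apply] at h3
    have h4 : x ^ Nat.card (MulAut K) * κ * (x ^ Nat.card (MulAut K))⁻¹ = κ := h3
    exact (mul_inv_eq_iff_eq_mul.1 h4)
  rw [pow_mul]
  generalize x ^ Nat.card (MulAut K) = z at h1
  have h5 : z⁻¹ * (y⁻¹ * z * y) ∈ K := by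
    apply hK
    have h6 : z⁻¹ * (y⁻¹ * z * y) = ⁅z⁻¹, y⁻¹⁆ := by
      rw [commutatorElement_def]; group
    rw [h6]
    exact Subgroup.commutator_mem_commutator (Subgroup.mem_top _) (Subgroup.mem_top _)
  have h7 := (h1 _ h5).mul_pow (Nat.card K)
  have h8 : (z⁻¹ * (y⁻¹ * z * y)) ^ Nat.card K = 1 := by
    have h9 : (⟨_, h5⟩ : K) ^ Nat.card K = 1 := pow_card_eq_one'
    exact congrArg Subtype.val h9
  rw [h8, mul_one] at h7
  have h10 : z * (z⁻¹ * (y⁻¹ * z * y)) = y⁻¹ * z * y⁻¹⁻¹ := by group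
  rw [h10, conj_pow] at h7
  have h11 : z ^ Nat.card K * y = y * (y⁻¹ * z ^ Nat.card K * y⁻¹⁻¹) := by group
  rw [h11, h7]

/-- the small normal subgroup -/
theorem exists_small {G : Type} [Group G] (K K0 : Subgroup G) (hK : ⁅(⊤ : Subgroup G), ⊤⁆ ≤ K)
    (hfg : K.FG) (_hK0 : K0 ≤ K) (h0 : K0.relIndex K ≠ 0) :
    ∃ K1 : Subgroup G, K1.Normal ∧ K1 ≤ K0 ∧ K1.relIndex K ≠ 0 ∧
      ∃ m, 0 < m ∧ ∀ x y : G, x ^ m * y * (x ^ m)⁻¹ * y⁻¹ ∈ K1 := by
  have hKn : K.Normal := Subgroup.Normal.of_commutator_le _ hK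
  have : Group.FG K := (Group.fg_iff_subgroup_fg K).2 hfg
  obtain ⟨C, hC, hC0, hCi⟩ := exists_char (K0.subgroupOf K) h0
  have hn : (C.map K.subtype).Normal := inferInstance
  have hle : C.map K.subtype ≤ K0 := by
    rintro _ ⟨x, hx, rfl⟩
    exact hC0 hx
  have hrel : (C.map K.subtype).relIndex K ≠ 0 := by
    have h1 : (C.map K.subtype).subgroupOf K = C := by
      rw [Subgroup.subgroupOf, Subgroup.comap_map_eq_self_of_injective K.subtype_injective]
    rw [Subgroup.relIndex, h1]
    exact hCi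
  refine ⟨C.map K.subtype, hn, hle, hrel, ?_⟩
  generalize C.map K.subtype = K1 at hn hle hrel
  let f : K →* G ⧸ K1 := (QuotientGroup.mk' K1).comp K.subtype
  have hker : f.ker = K1.subgroupOf K := by
    ext x
    rw [MonoidHom.mem_ker, Subgroup.mem_subgroupOf]
    exact QuotientGroup.eq_one_iff (N := K1) (x : G)
  have hrange : f.range = K.map (QuotientGroup.mk' K1) := by
    rw [MonoidHom.range_comp, Subgroup.range_subtype]
  have hfin : Finite (K.map (QuotientGroup.mk' K1)) := by
    have h1 := Subgroup.index_ker f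
    rw [hker, hrange] at h1
    exact Nat.finite_of_card_ne_zero (by rw [← h1]; exact hrel)
  have hn2 : (K.map (QuotientGroup.mk' K1)).Normal :=
    hKn.map _ (QuotientGroup.mk'_surjective K1)
  have hcom : ⁅(⊤ : Subgroup (G ⧸ K1)), ⊤⁆ ≤ K.map (QuotientGroup.mk' K1) := by
    have h2 : (⊤ : Subgroup (G ⧸ K1)) = (⊤ : Subgroup G).map (QuotientGroup.mk' K1) := by
      rw [Subgroup.map_top_of_surjective _ (QuotientGroup.mk'_surjective K1)]
    rw [h2, ← Subgroup.map_commutator]
    exact Subgroup.map_mono hK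
  obtain ⟨m, hm, hm'⟩ := central_pow (K.map (QuotientGroup.mk' K1)) hcom
  refine ⟨m, hm, fun x y => ?_⟩
  rw [← QuotientGroup.eq_one_iff]
  have h3 := hm' (x : G ⧸ K1) (y : G ⧸ K1)
  show (x : G ⧸ K1) ^ m * (y : G ⧸ K1) * ((x : G ⧸ K1) ^ m)⁻¹ * (y : G ⧸ K1)⁻¹ = 1
  rw [h3]; group

/-- finite index -/
theorem index_ne_zero {G : Type} [Group G] (K K1 P : Subgroup G) [P.Normal]
    (hK : ⁅(⊤ : Subgroup G), ⊤⁆ ≤ K) (h1P : K1 ≤ P) (h1 : K1.relIndex K ≠ 0) (S : Finset G)
    (hS : Subgroup.closure (S : Set G) ⊔ K = ⊤) (e : ℕ) (he : 0 < e)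
    (hSe : ∀ s ∈ S, s ^ e ∈ P) : P.index ≠ 0 := by
  have hKn : K.Normal := Subgroup.Normal.of_commutator_le _ hK
  set Q : Subgroup G := P ⊔ K with hQ
  have hQn : Q.Normal := inferInstance
  have hPQ : P.relIndex Q ≠ 0 := by
    rw [hQ, Subgroup.relIndex_sup_left]
    intro h0
    have := Subgroup.relIndex_dvd_of_le_left K h1P
    rw [h0] at this
    exact h1 (Nat.eq_zero_of_zero_dvd this)
  have hQi : Q.index ≠ 0 := by
    have hcomm : ∀ a b : G ⧸ Q, a * b = b * a := by
      intro a b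
      induction a using QuotientGroup.induction_on with
      | _ x =>
      induction b using QuotientGroup.induction_on with
      | _ y =>
      rw [← QuotientGroup.mk_mul, ← QuotientGroup.mk_mul, QuotientGroup.eq]
      have h2 : (x * y)⁻¹ * (y * x) = ⁅y⁻¹, x⁻¹⁆ := by
        rw [commutatorElement_def]; group
      rw [h2]
      exact le_sup_right (a := P) (hK (Subgroup.commutator_mem_commutator
        (Subgroup.mem_top _) (Subgroup.mem_top _)))
    let inst : CommGroup (G ⧸ Q) := { (inferInstance : Group (G ⧸ Q)) with mul_comm := hcomm }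
    have hgen : Subgroup.closure ((S.image (QuotientGroup.mk' Q) : Finset (G ⧸ Q)) :
        Set (G ⧸ Q)) = ⊤ := by
      rw [Finset.coe_image, ← MonoidHom.map_closure]
      rw [eq_top_iff, ← Subgroup.map_top_of_surjective _ (QuotientGroup.mk'_surjective Q), ← hS,
        Subgroup.map_sup]
      refine sup_le le_rfl ?_
      rintro _ ⟨x, hx, rfl⟩
      have h3 : QuotientGroup.mk' Q x = 1 :=
        (QuotientGroup.eq_one_iff x).2 (le_sup_right (a := P) hx)
      rw [h3]
      exact one_mem _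
    have hFG : Group.FG (G ⧸ Q) := ⟨⟨_, hgen⟩⟩
    have htor : ∀ x : G ⧸ Q, x ^ e = 1 := by
      intro x
      have hx : x ∈ Subgroup.closure ((S.image (QuotientGroup.mk' Q) : Finset (G ⧸ Q)) :
        Set (G ⧸ Q)) := by rw [hgen]; exact Subgroup.mem_top x
      induction hx using Subgroup.closure_induction with
      | mem y hy =>
        rw [Finset.mem_coe, Finset.mem_image] at hy
        obtain ⟨s, hs, rfl⟩ := hy
        rw [← map_pow]
        exact (QuotientGroup.eq_one_iff (s ^ e)).2 (le_sup_left (b := K) (hSe s hs))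
      | one => exact one_pow e
      | mul a b _ _ ha hb => rw [mul_pow, ha, hb, one_mul]
      | inv a _ ha => rw [inv_pow, ha, inv_one]
    have hfin : Finite (G ⧸ Q) := by
      exact CommGroup.finite_of_fg_isMulTorsion _
        fun x => isOfFinOrder_iff_pow_eq_one.2 ⟨e, he, htor x⟩
    exact Nat.card_pos.ne'
  rw [← Subgroup.relIndex_mul_index (le_sup_left : P ≤ Q)]
  exact Nat.mul_ne_zero hPQ hQi

end Pool.Agent.Y177.UGS
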