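import Pool.Agent.Y177.UGS.Chain
import Pool.Agent.Y177.UGS.Grp

/-!
# Project UGS: extension step for virtually unipotent actions
-/

set_option autoImplicit false

open scoped Classical commutatorElement

namespace Pool.Agent.Y177.UGS

open Pool.Agent.Y485.UGS

theorem pow_sub_one {E : Type} [Ring E] {σ : E} {q r : ℕ} (h : (σ ^ q - 1) ^ r = 0) (n : ℕ) :
    (σ ^ (q * n) - 1) ^ r = 0 := by
  have h1 : σ ^ (q * n) - 1 = (∑ i ∈ Finset.range n, (σ ^ q) ^ i) * (σ ^ q - 1) := by
    rw [geom_sum_mul, pow_mul]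
  have h2 : Commute (∑ i ∈ Finset.range n, (σ ^ q) ^ i) (σ ^ q - 1) := by
    refine Commute.sub_right ?_ (Commute.one_right _)
    refine Commute.sum_left _ _ _ fun i _ => ?_
    exact (Commute.refl (σ ^ q)).pow_left i
  rw [h1, h2.mul_pow, h, mul_zero]

theorem ext_top {G A : Type} [Group G] [AddCommGroup A] (φ : G →* AddMonoid.End A)
    (K : Subgroup G) (S : Finset G) (hK : ⁅(⊤ : Subgroup G), ⊤⁆ ≤ K) (hfg : K.FG)
    (hS : Subgroup.closure (S : Set G) ⊔ K = ⊤) (hQ : ∀ s ∈ S, QU (φ s)) (hVU : VU φ K) :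
    ∃ (H0 : Subgroup G) (r : ℕ), H0.index ≠ 0 ∧ U φ H0 r := by
  obtain ⟨K0, r, hK0, hi, hU0⟩ := hVU
  obtain ⟨K1, hn, hK1, hi1, m, hm, hcen⟩ := exists_small K K0 hK hfg hK0 hi
  unfold QU at hQ
  choose! q r' hq using hQ
  set e : ℕ := m * ∏ s ∈ S, q s with he
  have he0 : 0 < e := Nat.mul_pos hm (Finset.prod_pos fun s hs => (hq s hs).1)
  have hnil : ∀ s ∈ S, (φ (s ^ e) - 1) ^ r' s = 0 := by
    intro s hs
    obtain ⟨n, hn'⟩ : q s ∣ e := (Finset.dvd_prod_of_mem q hs).mul_left m
    rw [map_pow, hn']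
    exact pow_sub_one (hq s hs).2 n
  have hcen' : ∀ x y : G, x ^ e * y * (x ^ e)⁻¹ * y⁻¹ ∈ K1 := by
    intro x y
    have := hcen (x ^ ∏ s ∈ S, q s) y
    rwa [← pow_mul, mul_comm _ m] at this
  have hT : ∀ T : Finset G, T ⊆ S → ∃ (P : Subgroup G) (ρ : ℕ), P.Normal ∧ K1 ≤ P ∧
      (∀ s ∈ T, s ^ e ∈ P) ∧ U φ P ρ := by
    intro T
    induction T using Finset.induction_on with
    | empty =>
      intro _
      exact ⟨K1, r, hn, le_rfl, by simp, fun l hl hlen => hU0 l (fun h hh => hK1 (hl h hh)) hlen⟩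
    | insert s T _ ih =>
      intro hT
      obtain ⟨P, ρ, hPn, hKP, hsP, hU⟩ := ih (fun x hx => hT (Finset.mem_insert_of_mem hx))
      have hs : s ∈ S := hT (Finset.mem_insert_self s T)
      refine ⟨Subgroup.closure ((P : Set G) ∪ {s ^ e}), ρ * r' s, ⟨fun x hx g => ?_⟩, ?_, ?_,
        U_insert φ hU (fun h hh => hPn.conj_mem h hh _) (fun h hh => ?_) (hnil s hs)⟩
      · induction hx using Subgroup.closure_induction with
        | mem y hy =>
          rcases hy with hy | hy
          · exact Subgroup.subset_closure (Or.inl (hPn.conj_mem y hy g))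
          · rw [Set.mem_singleton_iff] at hy
            subst hy
            have h1 : g * s ^ e * g⁻¹ = (s ^ e * g * (s ^ e)⁻¹ * g⁻¹)⁻¹ * s ^ e := by group
            rw [h1]
            exact Subgroup.mul_mem _ (Subgroup.inv_mem _
              (Subgroup.subset_closure (Or.inl (hKP (hcen' s g)))))
              (Subgroup.subset_closure (Or.inr rfl))
        | one => simp
        | mul a b _ _ ha hb =>
          have h1 : g * (a * b) * g⁻¹ = (g * a * g⁻¹) * (g * b * g⁻¹) := by group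
          rw [h1]; exact Subgroup.mul_mem _ ha hb
        | inv a _ ha =>
          have h1 : g * a⁻¹ * g⁻¹ = (g * a * g⁻¹)⁻¹ := by group
          rw [h1]; exact Subgroup.inv_mem _ ha
      · exact fun x hx => Subgroup.subset_closure (Or.inl (hKP hx))
      · intro x hx
        rcases Finset.mem_insert.1 hx with rfl | hx
        · exact Subgroup.subset_closure (Or.inr rfl)
        · exact Subgroup.subset_closure (Or.inl (hsP x hx))
      · have h1 := hPn.conj_mem h hh (s ^ e)⁻¹
        rwa [inv_inv] at h1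
  obtain ⟨P, ρ, hPn, hKP, hsP, hU⟩ := hT S (fun x hx => hx)
  exact ⟨P, ρ, index_ne_zero K K1 P hK hKP hi1 S hS e he0 hsP, hU⟩

/-- extension step for virtually unipotent actions -/
theorem ext : S_EXT := by
  intro G A _ _ φ H K S hKH hHK hfg hSH hS hQ hVU
  obtain ⟨K0, r, hK0, hi, hU0⟩ := hVU
  have h1 : ⁅(⊤ : Subgroup H), ⊤⁆ ≤ K.subgroupOf H :=
    Subgroup.commutator_le.2 fun a _ b _ =>
      hHK (Subgroup.commutator_mem_commutator a.2 b.2)
  have h2 : (K.subgroupOf H).FG := by
    have : Group.FG K := (Group.fg_iff_subgroup_fg K).2 hfg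
    rw [← Group.fg_iff_subgroup_fg]
    exact Group.fg_of_surjective (f := (Subgroup.subgroupOfEquivOfLe hKH).symm.toMonoidHom)
      (Subgroup.subgroupOfEquivOfLe hKH).symm.surjective
  have hval : H.subtype '' ((S.subtype (· ∈ H) : Finset H) : Set H) = (S : Set G) := by
    ext x
    constructor
    · rintro ⟨y, hy, rfl⟩
      exact Finset.mem_subtype.1 hy
    · intro hx
      exact ⟨⟨x, hSH x hx⟩, Finset.mem_subtype.2 hx, rfl⟩
  have h3 : Subgroup.closure ((S.subtype (· ∈ H) : Finset H) : Set H) ⊔ K.subgroupOf H = ⊤ := by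
    apply Subgroup.map_injective H.subtype_injective
    rw [Subgroup.map_sup, MonoidHom.map_closure, hval, Subgroup.map_subgroupOf_eq_of_le hKH, hS,
      ← MonoidHom.range_eq_map, Subgroup.range_subtype]
  have h4 : ∀ s ∈ S.subtype (· ∈ H), QU ((φ.comp H.subtype) s) := by
    intro s hs
    exact hQ s (Finset.mem_subtype.1 hs)
  have h5 : VU (φ.comp H.subtype) (K.subgroupOf H) := by
    refine ⟨K0.subgroupOf H, r, Subgroup.comap_mono hK0, ?_, ?_⟩
    · rw [Subgroup.relIndex_subgroupOf hKH]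
      exact hi
    · intro l hl hlen
      have h6 := hU0 (l.map Subtype.val) (fun h hh => by
        obtain ⟨x, hx, rfl⟩ := List.mem_map.1 hh
        exact hl x hx) (by rw [List.length_map, hlen])
      rw [List.map_map] at h6
      exact h6
  obtain ⟨H0, ρ, hi0, hU⟩ := ext_top (φ.comp H.subtype) (K.subgroupOf H) (S.subtype (· ∈ H))
    h1 h2 h3 h4 h5
  refine ⟨H0.map H.subtype, ρ, ?_, ?_, ?_⟩
  · rintro _ ⟨x, _, rfl⟩
    exact x.2
  · rw [Subgroup.relIndex, Subgroup.subgroupOf,
      Subgroup.comap_map_eq_self_of_injective H.subtype_injective]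
    exact hi0
  · intro l hl hlen
    have hl' : ∀ h ∈ l, ∃ x : H, x ∈ H0 ∧ (x : G) = h := by
      intro h hh
      obtain ⟨x, hx, hx'⟩ := hl h hh
      exact ⟨x, hx, hx'⟩
    obtain ⟨l', hl'1, hl'2⟩ : ∃ l' : List H, (∀ x ∈ l', x ∈ H0) ∧ l'.map Subtype.val = l := by
      clear hlen hl
      induction l with
      | nil => exact ⟨[], by simp, rfl⟩
      | cons h l ih =>
        obtain ⟨l', h7, h8⟩ := ih (fun h' hh' => hl' h' (List.mem_cons_of_mem _ hh'))
        obtain ⟨x, hx, hx'⟩ := hl' h (List.mem_cons_self ..)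
        refine ⟨x :: l', ?_, ?_⟩
        · intro y hy
          rcases List.mem_cons.1 hy with rfl | hy
          · exact hx
          · exact h7 y hy
        · rw [List.map_cons, h8, hx']
    have h9 := hU l' hl'1 (by rw [← hlen, ← hl'2, List.length_map])
    rw [← hl'2, List.map_map]
    exact h9

end Pool.Agent.Y177.UGS
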